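import Pool.Agent.H705.GB.Stm
import Pool.Agent.H555.Sieg.Div

/-! # GB-BAD (helper725): large jumps are rare -/

set_option autoImplicit false

namespace Pool.Agent.H725.GB

open MeasureTheory ProbabilityTheory Finset Filter Topology
open Pool.Agent.H705.TR (PrimeIn Model un P_GEN P_CRT P_UN P_MOD)
open Pool.Agent.H705.GB

/-- at most one residue `y` modulo `g` has `g ∣ 2 y + 1` -/
theorem card_le (g q : ℕ) (s : Finset ℕ) (hs : ∀ y ∈ s, y < g * q ∧ g ∣ 2 * y + 1) : s.card ≤ q := by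
  have h1 : s.card ≤ (range q).card := by
    refine Finset.card_le_card_of_injOn (fun y => y / g) ?_ ?_
    · intro y hy
      exact Finset.mem_coe.2 (Finset.mem_range.2
        (Nat.div_lt_of_lt_mul (hs y (Finset.mem_coe.1 hy)).1))
    · intro y hy y' hy' he
      have h2 : g ∣ 2 * y + 1 := (hs y (Finset.mem_coe.1 hy)).2
      have h3 : g ∣ 2 * y' + 1 := (hs y' (Finset.mem_coe.1 hy')).2
      have he' : y / g = y' / g := he
      have hodd : Nat.Coprime g 2 := by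
        have h4 : Nat.gcd g 2 ∣ 1 := by
          have h5 : Nat.gcd g 2 ∣ 2 * y + 1 := (Nat.gcd_dvd_left g 2).trans h2
          have h6 : Nat.gcd g 2 ∣ 2 * y := (Nat.gcd_dvd_right g 2).trans (dvd_mul_right 2 y)
          exact (Nat.dvd_add_right h6).1 h5
        exact Nat.dvd_one.1 h4
      have h7 : 2 * y + 1 ≡ 2 * y' + 1 [MOD g] :=
        ((Nat.modEq_zero_iff_dvd).2 h2).trans ((Nat.modEq_zero_iff_dvd).2 h3).symm
      have h8 : 2 * y ≡ 2 * y' [MOD g] := Nat.ModEq.add_right_cancel' 1 h7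
      have h9 : y ≡ y' [MOD g] := Nat.ModEq.cancel_left_of_coprime hodd h8
      have h10 : y % g = y' % g := h9
      rw [← Nat.div_add_mod y g, ← Nat.div_add_mod y' g, he', h10]
  rwa [Finset.card_range] at h1

/-- the probability of `g ∣ 2 y + 1` -/
theorem un_le (k g : ℕ) (hk : 0 < k) (hg : 0 < g) (h : g ∣ k) :
    un k (fun y => g ∣ 2 * y + 1) ≤ 1 / (g : ℝ) := by
  obtain ⟨q, rfl⟩ := h
  have hgR : (0 : ℝ) < g := by exact_mod_cast hg
  unfold un
  rw [div_le_div_iff₀ (by exact_mod_cast hk) hgR, one_mul]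
  push_cast
  rw [mul_comm]
  refine mul_le_mul_of_nonneg_left ?_ hgR.le
  refine Nat.cast_le.2 (card_le g q _ ?_)
  intro y hy
  simp only [Finset.mem_filter, Finset.mem_range] at hy
  exact hy

theorem T_BAD (hJMP : P_JMP) (hUN : P_UN) : P_BAD := by
  intro ε hε
  obtain ⟨C0, hC0, hdiv⟩ := Pool.Agent.H555.Sieg.divisor_bound ε hε
  refine ⟨2 * C0, by positivity, ?_⟩
  intro Ω _ M P Y hM hMod z B N T H L hG n c hc2 hcN hNH hn hT
  obtain ⟨hz, hTB, hL⟩ := hG
  have := hMod.prob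
  have hc' : (2 * N - c) % 2 = 1 := by omega
  have hB0 : 0 < B := by omega
  have hBR : (0 : ℝ) < B := by exact_mod_cast hB0
  have e1 : ∀ ω, par (fun i => Y i ω) c = 2 * Y c ω + 1 := fun ω => by unfold par; rw [hc2]
  have e2 : ∀ ω, par (fun i => Y i ω) (2 * N - c) = 2 * Y (2 * N - c) ω + 1 := fun ω => by
    unfold par; rw [hc']
  -- the inclusion
  have hsub : {ω | ¬ R z N c (par (fun i => Y i ω) c) (par (fun i => Y i ω) (2 * N - c)) ∧
        B < jp N n c (par (fun i => Y i ω) c) (par (fun i => Y i ω) (2 * N - c))} ⊆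
      ⋃ m ∈ Finset.Ico n (n + 2 * z), ⋃ g ∈ ((m + 2 * (N - c)).divisors.filter (fun g => B < g)),
        {ω | g ∣ 2 * Y (2 * N - c) ω + 1} := by
    intro ω hω
    obtain ⟨h1, h2⟩ := hω
    rw [e1, e2] at h1 h2
    obtain ⟨p, hp, hpz, hpc⟩ : ∃ p : ℕ, p.Prime ∧ p ≤ z ∧ (p ^ 2 ≤ c ∧ p ∣ 2 * Y c ω + 1 ∨
        p ^ 2 ≤ 2 * N - c ∧ p ∣ 2 * Y (2 * N - c) ω + 1) := by
      by_contra hcon
      push Not at hcon
      exact h1 ⟨fun p hp hpz hpc hd => (hcon p hp hpz).1 hpc hd,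
        fun p hp hpz hpc hd => (hcon p hp hpz).2 hpc hd⟩
    have hp2 : p ≠ 2 := by
      rintro rfl
      rcases hpc with ⟨_, h⟩ | ⟨_, h⟩ <;> omega
    obtain ⟨j1, j2, _, _, j5⟩ := hJMP N c _ _ n p hn hp hp2 hpc
    have hjT : jm N n c (2 * Y c ω + 1) (2 * Y (2 * N - c) ω + 1) < n + 2 * z := by omega
    rcases j5 with ⟨_, _, k3⟩ | ⟨_, k2, k3⟩
    · exfalso
      omega
    · rw [Set.mem_iUnion₂]
      refine ⟨jm N n c (2 * Y c ω + 1) (2 * Y (2 * N - c) ω + 1), Finset.mem_Ico.2 ⟨j1, hjT⟩, ?_⟩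
      rw [Set.mem_iUnion₂]
      exact ⟨jp N n c (2 * Y c ω + 1) (2 * Y (2 * N - c) ω + 1),
        Finset.mem_filter.2 ⟨Nat.mem_divisors.2 ⟨k3, by omega⟩, h2⟩, k2⟩
  refine (measureReal_mono hsub (measure_ne_top P _)).trans ?_
  have hterm : ∀ m ∈ Finset.Ico n (n + 2 * z),
      P.real (⋃ g ∈ ((m + 2 * (N - c)).divisors.filter (fun g => B < g)),
        {ω | g ∣ 2 * Y (2 * N - c) ω + 1}) ≤ C0 * (N : ℝ) ^ ε / B := by
    intro m hm
    rw [Finset.mem_Ico] at hm
    have hmN : m + 2 * (N - c) ≤ N := by omega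
    have hmc : m + 2 * (N - c) ≤ 2 * N - c := by omega
    have hm0 : m + 2 * (N - c) ≠ 0 := by omega
    have hg1 : ∀ g ∈ ((m + 2 * (N - c)).divisors.filter (fun g => B < g)),
        P.real {ω | g ∣ 2 * Y (2 * N - c) ω + 1} ≤ 1 / (B : ℝ) := by
      intro g hg
      rw [Finset.mem_filter, Nat.mem_divisors] at hg
      obtain ⟨⟨hgd, _⟩, hgB⟩ := hg
      have hg0 : 0 < g := by omega
      have hgle : g ≤ m + 2 * (N - c) := Nat.le_of_dvd (Nat.pos_of_ne_zero hm0) hgd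
      rw [(hUN Ω M P Y hMod (2 * N - c) (fun y => g ∣ 2 * y + 1)).2]
      refine (un_le (M (2 * N - c)) g (hM (2 * N - c)).1 hg0
        ((hM (2 * N - c)).2 g hg0 (hgle.trans hmc))).trans ?_
      exact one_div_le_one_div_of_le hBR (by exact_mod_cast hgB.le)
    refine (measureReal_biUnion_finset_le _ _).trans ((Finset.sum_le_sum hg1).trans ?_)
    rw [Finset.sum_const, nsmul_eq_mul, mul_one_div]
    refine div_le_div_of_nonneg_right ?_ hBR.le
    have h1 : (((m + 2 * (N - c)).divisors.filter (fun g => B < g)).card : ℝ) ≤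
        ((m + 2 * (N - c)).divisors.card : ℝ) := by
      exact_mod_cast Finset.card_filter_le _ _
    refine h1.trans ((hdiv _ hm0).trans ?_)
    refine mul_le_mul_of_nonneg_left ?_ hC0.le
    exact Real.rpow_le_rpow (by positivity) (by exact_mod_cast hmN) hε.le
  refine (measureReal_biUnion_finset_le _ _).trans ((Finset.sum_le_sum hterm).trans ?_)
  rw [Finset.sum_const, Nat.card_Ico, nsmul_eq_mul, Nat.add_sub_cancel_left]
  push_cast
  refine le_of_eq ?_
  ring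

end Pool.Agent.H725.GB
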